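import Mathlib
import Pool.Agent.Helper14.HDefs
import Pool.Agent.Helper14.HLower
import Pool.Agent.Helper14.HUpper

set_option autoImplicit false

open Pool.Agent.Helper14.HDefs Pool.Agent.Helper14.HLower Pool.Agent.Helper14.HUpper

namespace Pool.Agent.Results.MP_3d4caa_nt.ExactValue

theorem mu_ge {N d : ℕ} (hN : 1 ≤ N) (hd : 1 ≤ d) (φ : RatMap N d) (hdom : φ.Dominant) :
    ((((d : ℝ) ^ (N - 1))⁻¹ : ℝ) : EReal) ≤ φ.mu := by
  obtain ⟨U, hUo, hUne, C, hC⟩ := main_ineq (by omega) φ hdom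
  unfold RatMap.mu
  refine le_trans ?_ (le_iSup₂ (f := fun (U : Set (PN N)) (_ : IsZariskiOpen U ∧ U.Nonempty) =>
    Filter.liminf (fun P => ((φ.ratio P : ℝ) : EReal))
      (Filter.comap ht Filter.atTop ⊓ Filter.principal {P | P ∈ U ∧ φ.DefinedAt P})) U ⟨hUo, hUne⟩)
  have hd0 : (0 : ℝ) < d := by exact_mod_cast hd
  set D : ℝ := (d : ℝ) ^ (N - 1) with hD
  have hDpos : 0 < D := by positivity
  have hDN : (d : ℝ) ^ N = d * D := by
    rw [hD, ← pow_succ']
    congr 1
    omega
  apply EReal.ge_of_forall_gt_iff_ge.mp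
  intro r hr
  rw [EReal.coe_lt_coe_iff] at hr
  apply Filter.le_liminf_of_le
  · isBoundedDefault
  · rw [Filter.eventually_inf_principal]
    have hpos : 0 < 1 - D * r := by
      have : D * r < D * D⁻¹ := mul_lt_mul_of_pos_left hr hDpos
      rw [mul_inv_cancel₀ hDpos.ne'] at this
      linarith
    have h1 : ∀ᶠ t : ℝ in Filter.atTop, max 1 (C / d / (1 - D * r)) ≤ t :=
      Filter.eventually_ge_atTop _
    have h2 : ∀ᶠ P : PN N in Filter.comap ht Filter.atTop,
        max 1 (C / d / (1 - D * r)) ≤ ht P := h1.comap ht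
    filter_upwards [h2] with P hP hPU
    obtain ⟨hPU, hdef⟩ := hPU
    rw [EReal.coe_le_coe_iff]
    have hht : 0 < ht P := lt_of_lt_of_le one_pos ((le_max_left _ _).trans hP)
    have h3 : C / d / (1 - D * r) ≤ ht P := (le_max_right _ _).trans hP
    rw [div_le_iff₀ hpos, div_le_iff₀ hd0] at h3
    have h4 := hC P hPU hdef
    rw [hDN] at h4
    unfold RatMap.ratio
    rw [dif_pos hdef, absHeight_val_mk, le_div_iff₀ hht]
    have h5 : (d : ℝ) * (D * (r * ht P)) ≤ d * (D * Pool.Agent.Helper14.HDefs.absHeight (φ.val P)) := by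
      nlinarith
    exact le_of_mul_le_mul_left (le_of_mul_le_mul_left h5 hd0) hDpos

/-- For all `N ≥ 2` and `d ≥ 2` the minimal height expansion ratio of dominant rational self-maps of
degree `d` of projective `N`-space is exactly `1 / d ^ (N - 1)`. -/
theorem result : ∀ N d : ℕ, 2 ≤ N → 2 ≤ d →
    muBar N d = ((1 / (d : ℝ) ^ (N - 1) : ℝ) : EReal) := by
  intro N d hN hd
  rw [one_div]
  apply le_antisymm
  · unfold muBar
    exact (iInf₂_le (exm hN hd) (exm_dominant hN hd)).trans (exm_mu hN hd)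
  · unfold muBar
    exact le_iInf₂ (fun φ hφ => mu_ge (by omega) (by omega) φ hφ)

end Pool.Agent.Results.MP_3d4caa_nt.ExactValue
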